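import Pool.Agent.Y170.NA.Step

/-!
# Project CO: the step of the induction
-/

set_option autoImplicit false

open Set Filter Topology Metric Function
open scoped Manifold ContDiff

noncomputable section

namespace Pool.Agent.Y170.NA

open Pool.Agent.Y522 Pool.Agent.Y522.NA

variable {m : ℕ} {X Y : Type} [TopologicalSpace X] [T2Space X] [ChartedSpace (E (m + 1)) X]
  [IsManifold (𝓡 (m + 1)) ∞ X] [TopologicalSpace Y] [ChartedSpace (E (m + 1)) Y]
  [IsManifold (𝓡 (m + 1)) ∞ Y]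

theorem tendsto_unif {α : Type*} [TopologicalSpace α] {V : Type*} [NormedAddCommGroup V]
    (F' : ℝ → α → V) (F : α → V) (S : Set α) (u₀ : α) (hF : ContinuousWithinAt F S u₀)
    (h : ∀ ε : ℝ, 0 < ε → ∀ u ∈ S, ‖F' ε u - F u‖ ≤ ε) :
    Tendsto (fun p : ℝ × α => F' p.1 p.2) (𝓝[>] 0 ×ˢ 𝓝[S] u₀) (𝓝 (F u₀)) := by
  have h1 : Tendsto (fun p : ℝ × α => F p.2) (𝓝[>] 0 ×ˢ 𝓝[S] u₀) (𝓝 (F u₀)) :=
    hF.tendsto.comp tendsto_snd
  have h2 : Tendsto (fun p : ℝ × α => F' p.1 p.2 - F p.2) (𝓝[>] 0 ×ˢ 𝓝[S] u₀) (𝓝 0) := by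
    refine squeeze_zero_norm' (a := fun p : ℝ × α => p.1) ?_ ?_
    · have e1 : ∀ᶠ p : ℝ × α in 𝓝[>] 0 ×ˢ 𝓝[S] u₀, 0 < p.1 :=
        tendsto_fst.eventually self_mem_nhdsWithin
      have e2 : ∀ᶠ p : ℝ × α in 𝓝[>] 0 ×ˢ 𝓝[S] u₀, p.2 ∈ S :=
        tendsto_snd.eventually self_mem_nhdsWithin
      filter_upwards [e1, e2] with p hp1 hp2
      exact h p.1 hp1 p.2 hp2
    · exact (tendsto_id.mono_left nhdsWithin_le_nhds).comp tendsto_fst
  have h3 := h2.add h1
  rw [zero_add] at h3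
  refine h3.congr fun p => ?_
  abel

theorem step_one (f : X → Y) {N : ℕ} (D : Fin N → Dat m f) (O : Set (X × Y)) (hO : IsOpen O)
    (hOD : ∀ p ∈ O, ∀ j, p.1 ∈ closure ((D j).U : Set X) →
      p.2 ∈ (chartAt (E (m + 1)) (D j).y0).source ∧
      ‖chartAt (E (m + 1)) (D j).y0 p.2 - chartAt (E (m + 1)) (D j).y0 (f p.1)‖ < (D j).η)
    (k : ℕ) (hk : k < N) (G : X → Y) (hG : Inv m f D O k G) :
    ∃ G' : X → Y, Inv m f D O (k + 1) G' := by
  classical
  set κ : Fin N := ⟨k, hk⟩ with hκ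
  set U := (D κ).U with hU
  set e := chartAt (E (m + 1)) (D κ).y0 with he
  have heLD : ∀ y ∈ e.source, LD (m + 1) (e : Y → E (m + 1)) y := fun y hy =>
    Pool.Agent.Y66.CM.LD_chart _ y hy
  have hesLD : ∀ z ∈ e.target, LD (m + 1) (e.symm : E (m + 1) → Y) z := fun z hz =>
    chart_symm_smooth _ hz
  have hsrcj : ∀ j, ∀ u : (D j).U, G u ∈ (chartAt (E (m + 1)) (D j).y0).source := fun j u =>
    (hOD _ (hG.gr u) j (subset_closure u.2)).1
  have hsrc : ∀ u : U, G u ∈ e.source := hsrcj κ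
  let F : U → E (m + 1) := fun u => e (G u)
  have hFs : ∀ u, ContMDiffAt (𝓡 (m + 1)) (𝓡 (m + 1)) ∞ F u := fun u =>
    (heLD _ (hsrc u)).contMDiffAt.comp u (hG.sm.contMDiffAt.comp u contMDiff_subtype_val.contMDiffAt)
  have hFc : Continuous F := continuous_iff_continuousAt.mpr fun u => (hFs u).continuousAt
  have hFi : Injective F := fun u v huv =>
    Subtype.ext (hG.bij.1 (e.injOn (hsrc u) (hsrc v) huv))
  -- the boxes in `X`
  let a : Fin N → E (m + 1) → X := fun j w => ((D j).A w : X)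
  have haLD : ∀ j, ∀ z ∈ box m 1 1, LD (m + 1) (a j) z := fun j z hz =>
    LD.comp_fun (LD_val _ _) ((D j).nb.ld z hz)
  have haC : ∀ j, ContinuousOn (a j) (box m 1 1) := fun j z hz =>
    (haLD j z hz).continuousAt.continuousWithinAt
  let b : Fin N → E (m + 1) → U := fun j w => if h : a j w ∈ U then ⟨a j w, h⟩ else (D κ).A 0
  have hb : ∀ j w, a j w ∈ U → (b j w : X) = a j w := by
    intro j w hw
    show ((if h : a j w ∈ U then ⟨a j w, h⟩ else (D κ).A 0 : U) : X) = a j w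
    rw [dif_pos hw]
  have hKUc : IsCompact ((D κ).A '' box m 1 1) :=
    (isCompact_box 1 1).image_of_continuousOn
      (Pool.Agent.Y870.SH.continuousOn_of_NBox (D κ).nb)
  have hKval : (Subtype.val '' ((D κ).A '' box m 1 1) : Set X) = a κ '' box m 1 1 := by
    rw [image_image]
  have hKc : IsCompact (a κ '' box m 1 1) := (isCompact_box 1 1).image_of_continuousOn (haC κ)
  have hKcl : IsClosed (a κ '' box m 1 1) := hKc.isClosed
  have hKU : ∀ x ∈ a κ '' box m 1 1, x ∈ U := by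
    rintro x ⟨w, _, rfl⟩
    exact ((D κ).A w).2
  let Oj : Fin N → Set (E (m + 1)) := fun j => box m 1 1 ∩ a j ⁻¹' (a κ '' box m 1 1)
  have hOjc : ∀ j, IsCompact (Oj j) := fun j =>
    (isCompact_box 1 1).of_isClosed_subset
      ((haC j).preimage_isClosed_of_isClosed (isCompact_box 1 1).isClosed hKcl) inter_subset_left
  have hOjU : ∀ j, ∀ z ∈ Oj j, a j z ∈ U := fun j z hz => hKU _ hz.2
  have hbLD : ∀ j, ∀ z ∈ Oj j, LD (m + 1) (b j) z := fun j z hz =>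
    LD_lift U (haLD j z hz.1) (b j) (hb j) (hOjU j z hz)
  have hsm_tl : ∀ z ∈ box m 1 1, ∀ᶠ y in 𝓝 ((D κ).A z),
      ContMDiffAt (𝓡 (m + 1)) (𝓡 m) ∞ (fun y => tl ((D κ).L (F y))) y := by
    intro z _
    refine Eventually.of_forall fun y => ?_
    have hT : ContMDiff (𝓡 (m + 1)) (𝓡 m) ∞ (fun w : E (m + 1) => tl ((D κ).L w)) :=
      ((tl : E (m + 1) →L[ℝ] E m) ∘L ((D κ).L : E (m + 1) →L[ℝ] E (m + 1))).contMDiff
    exact ContMDiffAt.comp (g := fun w : E (m + 1) => tl ((D κ).L w)) y hT.contMDiffAt (hFs y)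
  have key := fun (ε : ℝ) (hε : 0 < ε) => (D κ).step F hFc hFi
    (fun p => (hOD _ (hG.gr p) κ (subset_closure p.2)).2.le) hsm_tl
    (fun z hz => (hG.der κ z hz).le) N b Oj hOjc
    (fun j z hz => ⟨hbLD j z hz, Eventually.of_forall fun y => hFs y⟩) ε hε
  choose! F' hc hi hr hoff hcl _ hsmn hld hgd hdd using key
  have htgt : ∀ ε : ℝ, 0 < ε → ∀ u : U, F' ε u ∈ e.target := by
    intro ε hε u
    have h1 : F' ε u ∈ range F := by rw [← hr ε hε]; exact mem_range_self u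
    obtain ⟨v, hv⟩ := h1
    rw [← hv]
    exact e.map_source (hsrc v)
  have hF's : ∀ ε : ℝ, 0 < ε → ∀ u : U, ContMDiffAt (𝓡 (m + 1)) (𝓡 (m + 1)) ∞ (F' ε) u :=
    fun ε hε u => (hsmn ε hε u (Eventually.of_forall fun y => hFs y)).self_of_nhds
  -- first condition
  have ev1 : ∀ᶠ ε in 𝓝[>] (0 : ℝ), ∀ u ∈ (D κ).A '' box m 1 1,
      ((u : X), glue U e (F' ε) G u) ∈ O := by
    refine ev_compact hKUc (P := fun ε (u : U) => ((u : X), glue U e (F' ε) G u) ∈ O)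
      fun u₀ _ => ?_
    have t1 := tendsto_unif F' F ((D κ).A '' box m 1 1) u₀ hFc.continuousAt.continuousWithinAt
      (fun ε hε u _ => hcl ε hε u)
    have t2 : Tendsto (e.symm : E (m + 1) → Y) (𝓝 (F u₀)) (𝓝 (e.symm (F u₀))) :=
      (hesLD _ (e.map_source (hsrc u₀))).continuousAt
    have t3 : Tendsto (fun p : ℝ × U => (p.2 : X)) (𝓝[>] 0 ×ˢ 𝓝[(D κ).A '' box m 1 1] u₀)
        (𝓝 (u₀ : X)) :=
      (continuous_subtype_val.tendsto u₀).comp
        ((tendsto_id.mono_left nhdsWithin_le_nhds).comp tendsto_snd)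
    have t4 := t3.prodMk_nhds (t2.comp t1)
    have h0 : ((u₀ : X), e.symm (F u₀)) ∈ O := by
      have : e.symm (F u₀) = G u₀ := e.left_inv (hsrc u₀)
      rw [this]
      exact hG.gr u₀
    filter_upwards [t4.eventually (hO.mem_nhds h0)] with p hp
    have : glue U e (F' p.1) G p.2 = e.symm (F' p.1 p.2) := glue_in U e (F' p.1) G p.2
    rw [this]
    exact hp
  -- second condition
  have ev2 : ∀ j, ∀ᶠ ε in 𝓝[>] (0 : ℝ), ∀ z ∈ Oj j,
      ‖fderiv ℝ (fun w => tl ((D j).L (chartAt (E (m + 1)) (D j).y0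
        (glue U e (F' ε) G (a j w))))) z - tl‖ < (D j).η := by
    intro j
    set e' := chartAt (E (m + 1)) (D j).y0 with he'
    have he'LD : ∀ y ∈ e'.source, LD (m + 1) (e' : Y → E (m + 1)) y := fun y hy =>
      Pool.Agent.Y66.CM.LD_chart _ y hy
    set T : E (m + 1) →L[ℝ] E m :=
      (tl : E (m + 1) →L[ℝ] E m) ∘L ((D j).L : E (m + 1) →L[ℝ] E (m + 1)) with hT
    refine ev_compact (hOjc j) (P := fun ε z => ‖fderiv ℝ (fun w => tl ((D j).L (e'
        (glue U e (F' ε) G (a j w))))) z - tl‖ < (D j).η) fun z₀ hz₀ => ?_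
    have hb0 : (b j z₀ : X) = a j z₀ := hb j z₀ (hOjU j z₀ hz₀)
    have hGz : e.symm (F (b j z₀)) = G (a j z₀) := by
      have : e.symm (F (b j z₀)) = G (b j z₀) := e.left_inv (hsrc _)
      rw [this, hb0]
    have hGs : G (a j z₀) ∈ e'.source := hsrcj j ((D j).A z₀)
    have hbc : ContinuousAt (b j) z₀ := (hbLD j z₀ hz₀).continuousAt
    have c1 : ContinuousWithinAt (fun z => F (b j z)) (Oj j) z₀ :=
      (hFc.continuousAt.comp hbc).continuousWithinAt
    have t1 := tendsto_unif (fun ε z => F' ε (b j z)) (fun z => F (b j z)) (Oj j) z₀ c1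
      (fun ε hε z _ => hcl ε hε (b j z))
    have cd : ContDiffAt ℝ ∞ (fun w => F (b j w)) z₀ :=
      contMDiffAt_iff_contDiffAt.1 ((hFs _).comp z₀ (hbLD j z₀ hz₀).contMDiffAt)
    have c2 : ContinuousWithinAt (fun z => fderiv ℝ (fun w => F (b j w)) z) (Oj j) z₀ :=
      (cd.fderiv_right (m := 0) (by simp)).continuousAt.continuousWithinAt
    have t2 := tendsto_unif (fun ε z => fderiv ℝ (fun w => F' ε (b j w)) z)
      (fun z => fderiv ℝ (fun w => F (b j w)) z) (Oj j) z₀ c2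
      (fun ε hε z hz => hdd ε hε j z hz)
    have hΨ : LD (m + 1) (fun y => e' (e.symm y)) (F (b j z₀)) :=
      LD.comp_fun (he'LD _ (by rw [hGz]; exact hGs)) (hesLD _ (e.map_source (hsrc _)))
    have c3 : ContinuousAt (fderiv ℝ (fun y => e' (e.symm y))) (F (b j z₀)) :=
      (hΨ.contDiffAt.fderiv_right (m := 0) (by simp)).continuousAt
    have t3 := c3.tendsto.comp t1
    have t4 : Tendsto (fun p : ℝ × E (m + 1) => T ∘L
        ((fderiv ℝ (fun y => e' (e.symm y)) (F' p.1 (b j p.2))) ∘L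
          (fderiv ℝ (fun w => F' p.1 (b j w)) p.2)))
        (𝓝[>] 0 ×ˢ 𝓝[Oj j] z₀) (𝓝 (T ∘L ((fderiv ℝ (fun y => e' (e.symm y)) (F (b j z₀))) ∘L
          (fderiv ℝ (fun w => F (b j w)) z₀)))) := by
      have s1 : Continuous fun q : (E (m + 1) →L[ℝ] E (m + 1)) × (E (m + 1) →L[ℝ] E (m + 1)) =>
          T ∘L (q.1 ∘L q.2) := by fun_prop
      exact (s1.tendsto _).comp (t3.prodMk_nhds t2)
    have hlim : T ∘L ((fderiv ℝ (fun y => e' (e.symm y)) (F (b j z₀))) ∘L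
          (fderiv ℝ (fun w => F (b j w)) z₀)) =
        fderiv ℝ (fun w => tl ((D j).L (e' (G (a j w))))) z₀ := by
      have := der_formula U e e' hesLD he'LD F G (fun u => (e.left_inv (hsrc u)).symm) (a j) (b j)
        T z₀ (haLD j z₀ hz₀.1) (hOjU j z₀ hz₀) (hb j) (hFs _) (e.map_source (hsrc _))
        (by rw [hGz]; exact hGs)
      exact this.symm
    have t5 : Tendsto (fun p : ℝ × E (m + 1) => ‖T ∘L
        ((fderiv ℝ (fun y => e' (e.symm y)) (F' p.1 (b j p.2))) ∘L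
          (fderiv ℝ (fun w => F' p.1 (b j w)) p.2)) - tl‖)
        (𝓝[>] 0 ×ˢ 𝓝[Oj j] z₀)
        (𝓝 ‖fderiv ℝ (fun w => tl ((D j).L (e' (G (a j w))))) z₀ - tl‖) := by
      rw [← hlim]
      exact (t4.sub_const _).norm
    have hlt : ‖fderiv ℝ (fun w => tl ((D j).L (e' (G (a j w))))) z₀ - tl‖ < (D j).η :=
      hG.der j z₀ hz₀.1
    have ev3 := t5.eventually_lt_const hlt
    have t6 : Tendsto (fun p : ℝ × E (m + 1) => e.symm (F' p.1 (b j p.2)))
        (𝓝[>] 0 ×ˢ 𝓝[Oj j] z₀) (𝓝 (e.symm (F (b j z₀)))) :=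
      ((hesLD _ (e.map_source (hsrc _))).continuousAt.tendsto).comp t1
    have ev4 : ∀ᶠ p : ℝ × E (m + 1) in 𝓝[>] 0 ×ˢ 𝓝[Oj j] z₀,
        e.symm (F' p.1 (b j p.2)) ∈ e'.source :=
      t6.eventually (e'.open_source.mem_nhds (by rw [hGz]; exact hGs))
    have ev5 : ∀ᶠ p : ℝ × E (m + 1) in 𝓝[>] 0 ×ˢ 𝓝[Oj j] z₀, 0 < p.1 :=
      tendsto_fst.eventually self_mem_nhdsWithin
    have ev6 : ∀ᶠ p : ℝ × E (m + 1) in 𝓝[>] 0 ×ˢ 𝓝[Oj j] z₀, p.2 ∈ Oj j :=
      tendsto_snd.eventually self_mem_nhdsWithin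
    filter_upwards [ev3, ev4, ev5, ev6] with p h3 h4 h5 h6
    have := der_formula U e e' hesLD he'LD (F' p.1) (glue U e (F' p.1) G)
      (fun u => glue_in U e (F' p.1) G u) (a j) (b j)
      T p.2 (haLD j p.2 h6.1) (hOjU j p.2 h6) (hb j) (hF's p.1 h5 _) (htgt p.1 h5 _) h4
    have e7 : fderiv ℝ (fun w => tl ((D j).L (e' (glue U e (F' p.1) G (a j w))))) p.2 =
        T ∘L ((fderiv ℝ (fun y => e' (e.symm y)) (F' p.1 (b j p.2))) ∘L
          (fderiv ℝ (fun w => F' p.1 (b j w)) p.2)) := this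
    rw [e7]
    exact h3
  obtain ⟨ε, ⟨h1, h2⟩, hε⟩ := ((ev1.and (eventually_all.2 ev2)).and self_mem_nhdsWithin).exists
  have hε0 : 0 < ε := hε
  have hoff' : ∀ u ∉ (D κ).A '' box m 1 1, F' ε u = e (G u) := hoff ε hε0
  have hKcl' : IsClosed (Subtype.val '' ((D κ).A '' box m 1 1) : Set X) := by
    rw [hKval]; exact hKcl
  have hglue_off : ∀ x, x ∉ a κ '' box m 1 1 → glue U e (F' ε) G x = G x := by
    intro x hx
    exact glue_off U e (F' ε) G hsrc _ hoff' (by rw [hKval]; exact hx)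
  refine ⟨glue U e (F' ε) G, ?_, ?_, ?_, ?_, ?_⟩
  · exact glue_smooth U e hesLD (F' ε) G hG.sm hsrc (htgt ε hε0) (hF's ε hε0) _ hKcl' hoff'
  · exact glue_bij U e (F' ε) G hG.bij hsrc (hi ε hε0) (hr ε hε0)
  · intro x
    by_cases hx : x ∈ a κ '' box m 1 1
    · rw [← hKval] at hx
      obtain ⟨u, hu, rfl⟩ := hx
      exact h1 u hu
    · rw [hglue_off x hx]
      exact hG.gr x
  · intro j z hz
    by_cases hzO : z ∈ Oj j
    · exact h2 j z hzO
    · have hnot : a j z ∉ a κ '' box m 1 1 := fun h => hzO ⟨hz, h⟩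
      have hev : (fun w => tl ((D j).L (chartAt (E (m + 1)) (D j).y0
          (glue U e (F' ε) G ((D j).A w : X))))) =ᶠ[𝓝 z]
          fun w => tl ((D j).L (chartAt (E (m + 1)) (D j).y0 (G ((D j).A w : X)))) := by
        have h3 : ∀ᶠ w in 𝓝 z, a j w ∈ (a κ '' box m 1 1)ᶜ :=
          (haLD j z hz).continuousAt.tendsto.eventually (hKcl.isOpen_compl.mem_nhds hnot)
        filter_upwards [h3] with w hw
        have : glue U e (F' ε) G ((D j).A w : X) = G ((D j).A w : X) := hglue_off _ hw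
        rw [this]
      rw [hev.fderiv_eq]
      exact hG.der j z hz
  · intro i hi' z hz
    rcases Nat.lt_succ_iff_lt_or_eq.1 hi' with h | h
    · exact glue_LD U e hesLD heLD (F' ε) G hsrc (htgt ε hε0) (fun u hu => hld ε hε0 u hu) _
        hKcl' hoff' (hG.good i h z hz)
    · have hiκ : i = κ := Fin.ext h
      rw [hiκ]
      exact glue_LD' U e hesLD (F' ε) G (htgt ε hε0) (hgd ε hε0 z hz)

end Pool.Agent.Y170.NA
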