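import Pool.Agent.Y522.NA.Stm2
import Pool.Agent.Y522.Compact
import Pool.Agent.Y47.SH.NBox
import Pool.Agent.Y870.SH.Glob
import Pool.Agent.Y66.CM.All
import Pool.Agent.Y522.Tools

/-!
# Project CO: preparations for the global step
-/

set_option autoImplicit false

open Set Filter Topology Metric Function
open scoped Manifold ContDiff

noncomputable section

namespace Pool.Agent.Y170.NA

open Pool.Agent.Y522 Pool.Agent.Y522.NA

/-- uniformity over a compact set from local statements -/
theorem ev_compact {α β : Type*} [TopologicalSpace β] {l : Filter α} {K : Set β}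
    (hK : IsCompact K) {P : α → β → Prop}
    (h : ∀ x ∈ K, ∀ᶠ p in l ×ˢ 𝓝[K] x, P p.1 p.2) : ∀ᶠ a in l, ∀ x ∈ K, P a x := by
  refine hK.induction_on (p := fun S => ∀ᶠ a in l, ∀ x ∈ S, P a x) ?_ ?_ ?_ ?_
  · exact Eventually.of_forall fun a x hx => absurd hx (notMem_empty x)
  · intro s t hst ht
    filter_upwards [ht] with a ha x hx using ha x (hst hx)
  · intro s t hs ht
    filter_upwards [hs, ht] with a ha hb x hx
    rcases hx with hx | hx
    · exact ha x hx
    · exact hb x hx
  · intro x hx
    obtain ⟨pa, hpa, pb, hpb, hab⟩ := eventually_prod_iff.mp (h x hx)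
    exact ⟨{y | pb y}, hpb, by filter_upwards [hpa] with a ha y hy using hab ha hy⟩

/-- a linear map which is onto on a given large subspace -/
theorem exists_proj {m : ℕ} (W : Submodule ℝ (E (m + 1))) (h : m ≤ Module.finrank ℝ W) :
    ∃ P : E (m + 1) →L[ℝ] E m, ∀ y : E m, ∃ w ∈ W, P w = y := by
  let b := Module.finBasis ℝ W
  let P0 : W →ₗ[ℝ] E m := (WithLp.linearEquiv 2 ℝ (Fin m → ℝ)).symm.toLinearMap ∘ₗ
    (LinearMap.funLeft ℝ ℝ (Fin.castLE h)) ∘ₗ b.equivFun.toLinearMap
  have hP0 : Surjective P0 := by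
    intro y
    obtain ⟨c, hc⟩ := LinearMap.funLeft_surjective_of_injective ℝ ℝ (Fin.castLE h)
      (Fin.castLE_injective h) ((WithLp.linearEquiv 2 ℝ (Fin m → ℝ)) y)
    refine ⟨b.equivFun.symm c, ?_⟩
    show (WithLp.linearEquiv 2 ℝ (Fin m → ℝ)).symm
      ((LinearMap.funLeft ℝ ℝ (Fin.castLE h)) (b.equivFun (b.equivFun.symm c))) = y
    rw [LinearEquiv.apply_symm_apply, hc, LinearEquiv.symm_apply_apply]
  obtain ⟨g, hg⟩ := LinearMap.exists_extend P0
  refine ⟨LinearMap.toContinuousLinearMap g, fun y => ?_⟩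
  obtain ⟨w, hw⟩ := hP0 y
  refine ⟨w, w.2, ?_⟩
  have := congrArg (fun f => f w) hg
  rw [← hw]
  exact this

section opens

variable {n : ℕ} {X : Type} [TopologicalSpace X] [ChartedSpace (E n) X]

/-- the inclusion of an open submanifold is a local diffeomorphism -/
theorem LD_val (U : TopologicalSpace.Opens X) (u : U) : LD n (Subtype.val : U → X) u := by
  let e : OpenPartialHomeomorph U X := U.openPartialHomeomorphSubtypeCoe ⟨u⟩
  have hsymm : ∀ y : U, e.symm (y : X) = y := fun y => e.left_inv (mem_univ y)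
  refine ⟨{ toPartialEquiv := e.toPartialEquiv
            open_source := e.open_source
            open_target := e.open_target
            contMDiffOn_toFun := contMDiff_subtype_val.contMDiffOn
            contMDiffOn_invFun := ?_ }, mem_univ u, fun _ _ => rfl⟩
  intro x hx
  have hxU : x ∈ U := by
    have h1 : e.target = (U : Set X) := TopologicalSpace.Opens.openPartialHomeomorphSubtypeCoe_target _ _
    have h2 : x ∈ e.target := hx
    rw [h1] at h2
    exact h2
  have key : ContMDiffAt (𝓡 n) (𝓡 n) ∞ (e.symm : X → U) (⟨x, hxU⟩ : U).val := by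
    rw [← contMDiffAt_subtype_iff]
    exact contMDiffAt_id.congr_of_eventuallyEq (Eventually.of_forall fun y => hsymm y)
  exact key.contMDiffWithinAt

/-- lifting a local diffeomorphism to an open submanifold -/
theorem LD_lift (U : TopologicalSpace.Opens X) {a : E n → X} {z : E n} (ha : LD n a z)
    (b : E n → U) (hb : ∀ w, a w ∈ U → (b w : X) = a w) (hz : a z ∈ U) : LD n b z := by
  obtain ⟨p, hp1, hp2, hp3, hp4⟩ := (LD_val (n := n) U ⟨a z, hz⟩).exists_inverse
  have h1 : LD n (fun w => p (a w)) z := LD.comp_fun hp1 ha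
  refine h1.congr ?_
  have h2 : ∀ᶠ w in 𝓝 z, ((p (a w) : U) : X) = a w := ha.continuousAt.tendsto.eventually hp4
  have h3 : ∀ᶠ w in 𝓝 z, a w ∈ U := ha.continuousAt.tendsto.eventually (U.2.mem_nhds hz)
  filter_upwards [h2, h3] with w hw hw'
  apply Subtype.ext
  rw [hb w hw', hw]

end opens

end Pool.Agent.Y170.NA
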