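import Pool.Agent.Y170.NA.Pre

/-!
# Project CO: one step of the induction
-/

set_option autoImplicit false

open Set Filter Topology Metric Function
open scoped Manifold ContDiff

noncomputable section

namespace Pool.Agent.Y170.NA

open Pool.Agent.Y522 Pool.Agent.Y522.NA

section defs

variable (m : ℕ) {X Y : Type} [TopologicalSpace X] [T2Space X] [ChartedSpace (E (m + 1)) X]
  [IsManifold (𝓡 (m + 1)) ∞ X] [TopologicalSpace Y] [ChartedSpace (E (m + 1)) Y]

/-- A box in normal form, in charts, with the step of the smoothing. -/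
structure Dat (f : X → Y) where
  U : TopologicalSpace.Opens X
  y0 : Y
  A : E (m + 1) → U
  L : E (m + 1) ≃L[ℝ] E (m + 1)
  b : E m
  η : ℝ
  clo : ∀ x ∈ closure (U : Set X), f x ∈ (chartAt (E (m + 1)) y0).source
  nb : NBox m (fun u : U => chartAt (E (m + 1)) y0 (f u)) A L b
  pos : 0 < η
  step : ∀ F : U → E (m + 1), Continuous F → Injective F →
      (∀ p, ‖F p - chartAt (E (m + 1)) y0 (f p)‖ ≤ η) →
      (∀ z ∈ box m 1 1,
        ∀ᶠ y in 𝓝 (A z), ContMDiffAt (𝓡 (m + 1)) (𝓡 m) ∞ (fun y => tl (L (F y))) y) →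
      (∀ z ∈ box m 1 1, ‖fderiv ℝ (fun w => tl (L (F (A w)))) z - tl‖ ≤ η) →
      ∀ (N : ℕ) (B : Fin N → E (m + 1) → U) (O : Fin N → Set (E (m + 1))),
      (∀ j, IsCompact (O j)) → (∀ j, ∀ z ∈ O j, LD (m + 1) (B j) z ∧ SmN m F (B j z)) →
      ∀ ε : ℝ, 0 < ε → ∃ F' : U → E (m + 1), Continuous F' ∧ Injective F' ∧
        range F' = range F ∧ (∀ p, p ∉ A '' box m 1 1 → F' p = F p) ∧ (∀ p, ‖F' p - F p‖ ≤ ε) ∧
        (∀ p, tl (L (F' p)) = tl (L (F p))) ∧ (∀ p, SmN m F p → SmN m F' p) ∧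
        (∀ p, LD (m + 1) F p → LD (m + 1) F' p) ∧
        (∀ z ∈ box m (1 / 4) (1 / 4), LD (m + 1) F' (A z)) ∧
        ∀ j, ∀ z ∈ O j,
          ‖fderiv ℝ (fun w => F' (B j w)) z - fderiv ℝ (fun w => F (B j w)) z‖ ≤ ε

/-- the state after `k` steps -/
structure Inv (f : X → Y) {N : ℕ} (D : Fin N → Dat m f) (O : Set (X × Y)) (k : ℕ) (G : X → Y) :
    Prop where
  sm : ContMDiff (𝓡 (m + 1)) (𝓡 (m + 1)) ∞ G
  bij : Bijective G
  gr : ∀ x, (x, G x) ∈ O
  der : ∀ j, ∀ z ∈ box m 1 1,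
    ‖fderiv ℝ (fun w => tl ((D j).L (chartAt (E (m + 1)) (D j).y0 (G ((D j).A w : X))))) z - tl‖
      < (D j).η
  good : ∀ i : Fin N, (i : ℕ) < k → ∀ z ∈ box m (1 / 4) (1 / 4), LD (m + 1) G ((D i).A z : X)

end defs

section step

variable {m : ℕ} {X Y : Type} [TopologicalSpace X] [T2Space X] [ChartedSpace (E (m + 1)) X]
  [IsManifold (𝓡 (m + 1)) ∞ X] [TopologicalSpace Y] [ChartedSpace (E (m + 1)) Y]
  [IsManifold (𝓡 (m + 1)) ∞ Y]

theorem chart_symm_smooth (y0 : Y) {z : E (m + 1)} (hz : z ∈ (chartAt (E (m + 1)) y0).target) :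
    LD (m + 1) ((chartAt (E (m + 1)) y0).symm : E (m + 1) → Y) z := by
  have h1 := Pool.Agent.Y66.CM.LD_chart (n := m + 1) y0 ((chartAt (E (m + 1)) y0).symm z)
    ((chartAt (E (m + 1)) y0).map_target hz)
  have h2 := LD.inverse (n := m + 1) (chartAt (E (m + 1)) y0).open_source
    (fun x hx => Pool.Agent.Y66.CM.LD_chart (n := m + 1) y0 x hx)
    (g := ((chartAt (E (m + 1)) y0).symm : E (m + 1) → Y))
    (fun x hx => (chartAt (E (m + 1)) y0).left_inv hx) ((chartAt (E (m + 1)) y0).map_target hz)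
  rwa [(chartAt (E (m + 1)) y0).right_inv hz] at h2

end step

section glue

variable {n : ℕ} {X Y : Type} [TopologicalSpace X] [ChartedSpace (E n) X]
  [TopologicalSpace Y] [ChartedSpace (E n) Y]

/-- glueing in the smoothed map -/
def glue (U : TopologicalSpace.Opens X) (e : OpenPartialHomeomorph Y (E n))
    (F' : U → E n) (G : X → Y) (x : X) : Y :=
  open Classical in if h : x ∈ U then e.symm (F' ⟨x, h⟩) else G x

omit [ChartedSpace (E n) X] [ChartedSpace (E n) Y] in
theorem glue_in (U : TopologicalSpace.Opens X) (e : OpenPartialHomeomorph Y (E n))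
    (F' : U → E n) (G : X → Y) (u : U) : glue U e F' G (u : X) = e.symm (F' u) := by
  unfold glue
  rw [dif_pos u.2]

omit [ChartedSpace (E n) X] [ChartedSpace (E n) Y] in
theorem glue_out (U : TopologicalSpace.Opens X) (e : OpenPartialHomeomorph Y (E n))
    (F' : U → E n) (G : X → Y) {x : X} (hx : x ∉ U) : glue U e F' G x = G x := by
  unfold glue
  rw [dif_neg hx]

omit [ChartedSpace (E n) X] [ChartedSpace (E n) Y] in
theorem glue_bij (U : TopologicalSpace.Opens X) (e : OpenPartialHomeomorph Y (E n))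
    (F' : U → E n) (G : X → Y) (hG : Bijective G) (hsrc : ∀ u : U, G u ∈ e.source)
    (hi : Injective F') (hr : range F' = range fun u : U => e (G u)) :
    Bijective (glue U e F' G) := by
  have hval : ∀ u : U, ∃ v : U, glue U e F' G u = G v ∧ e (G v) = F' u := by
    intro u
    have h1 : F' u ∈ range fun u : U => e (G u) := by rw [← hr]; exact mem_range_self u
    obtain ⟨v, hv⟩ := h1
    refine ⟨v, ?_, hv⟩
    rw [glue_in, ← hv]
    exact e.left_inv (hsrc v)
  constructor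
  · intro x y hxy
    by_cases hx : x ∈ U <;> by_cases hy : y ∈ U
    · obtain ⟨v, hv1, hv2⟩ := hval ⟨x, hx⟩
      obtain ⟨w, hw1, hw2⟩ := hval ⟨y, hy⟩
      have h1 : G v = G w := by rw [← hv1, ← hw1]; exact hxy
      have h2 : F' ⟨x, hx⟩ = F' ⟨y, hy⟩ := by rw [← hv2, ← hw2, h1]
      exact congrArg Subtype.val (hi h2)
    · obtain ⟨v, hv1, hv2⟩ := hval ⟨x, hx⟩
      rw [glue_out U e F' G hy] at hxy
      have h1 : G v = G y := by rw [← hv1]; exact hxy
      exact absurd (by rw [← hG.1 h1]; exact v.2) hy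
    · obtain ⟨v, hv1, hv2⟩ := hval ⟨y, hy⟩
      rw [glue_out U e F' G hx] at hxy
      have h1 : G x = G v := by rw [← hv1]; exact hxy
      exact absurd (by rw [hG.1 h1]; exact v.2) hx
    · rw [glue_out U e F' G hx, glue_out U e F' G hy] at hxy
      exact hG.1 hxy
  · intro y
    obtain ⟨x, rfl⟩ := hG.2 y
    by_cases hx : x ∈ U
    · have h1 : e (G x) ∈ range F' := by rw [hr]; exact ⟨⟨x, hx⟩, rfl⟩
      obtain ⟨u, hu⟩ := h1
      refine ⟨u, ?_⟩
      rw [glue_in, hu]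
      exact e.left_inv (hsrc ⟨x, hx⟩)
    · exact ⟨x, glue_out U e F' G hx⟩

omit [ChartedSpace (E n) X] [ChartedSpace (E n) Y] in
theorem glue_off (U : TopologicalSpace.Opens X) (e : OpenPartialHomeomorph Y (E n))
    (F' : U → E n) (G : X → Y) (hsrc : ∀ u : U, G u ∈ e.source) (K : Set U)
    (hoff : ∀ u ∉ K, F' u = e (G u)) {x : X} (hx : x ∉ Subtype.val '' K) :
    glue U e F' G x = G x := by
  by_cases h : x ∈ U
  · have h1 : (⟨x, h⟩ : U) ∉ K := fun hk => hx ⟨⟨x, h⟩, hk, rfl⟩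
    have h2 := glue_in U e F' G ⟨x, h⟩
    rw [hoff _ h1] at h2
    rw [show glue U e F' G x = glue U e F' G ((⟨x, h⟩ : U) : X) from rfl, h2]
    exact e.left_inv (hsrc ⟨x, h⟩)
  · exact glue_out U e F' G h

theorem LD_descend (U : TopologicalSpace.Opens X) (g : X → Y) (u : U)
    (h : LD n (fun v : U => g v) u) : LD n g (u : X) := by
  obtain ⟨p, hp1, hp2, hp3, hp4⟩ := (LD_val (n := n) U u).exists_inverse
  have h1 : LD n (fun x => g (p x : X)) (u : X) :=
    LD.comp_fun (g := fun v : U => g v) (f := p) (by rw [hp2]; exact h) hp1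
  refine h1.congr ?_
  filter_upwards [hp4] with z hz
  exact congrArg g hz.symm

theorem glue_smooth (U : TopologicalSpace.Opens X) (e : OpenPartialHomeomorph Y (E n))
    (he : ∀ z ∈ e.target, LD n (e.symm : E n → Y) z)
    (F' : U → E n) (G : X → Y) (hG : ContMDiff (𝓡 n) (𝓡 n) ∞ G)
    (hsrc : ∀ u : U, G u ∈ e.source) (htgt : ∀ u : U, F' u ∈ e.target)
    (hF' : ∀ u : U, ContMDiffAt (𝓡 n) (𝓡 n) ∞ F' u) (K : Set U)
    (hK : IsClosed (Subtype.val '' K : Set X)) (hoff : ∀ u ∉ K, F' u = e (G u)) :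
    ContMDiff (𝓡 n) (𝓡 n) ∞ (glue U e F' G) := by
  intro x
  by_cases hx : x ∈ U
  · have h1 : ContMDiffAt (𝓡 n) (𝓡 n) ∞ (fun u : U => glue U e F' G u) ⟨x, hx⟩ := by
      have h2 : (fun u : U => glue U e F' G u) = fun u => e.symm (F' u) := by
        funext u
        exact glue_in U e F' G u
      rw [h2]
      exact (he _ (htgt _)).contMDiffAt.comp _ (hF' _)
    exact contMDiffAt_subtype_iff.mp h1
  · have hxK : x ∉ Subtype.val '' K := by
      rintro ⟨u, _, rfl⟩
      exact hx u.2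
    refine hG.contMDiffAt.congr_of_eventuallyEq ?_
    filter_upwards [hK.isOpen_compl.mem_nhds hxK] with y hy
    exact glue_off U e F' G hsrc K hoff hy

/-- local diffeomorphisms are preserved -/
theorem glue_LD (U : TopologicalSpace.Opens X) (e : OpenPartialHomeomorph Y (E n))
    (he : ∀ z ∈ e.target, LD n (e.symm : E n → Y) z)
    (he' : ∀ y ∈ e.source, LD n (e : Y → E n) y)
    (F' : U → E n) (G : X → Y)
    (hsrc : ∀ u : U, G u ∈ e.source) (htgt : ∀ u : U, F' u ∈ e.target)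
    (hF' : ∀ u : U, LD n (fun u : U => e (G u)) u → LD n F' u) (K : Set U)
    (hK : IsClosed (Subtype.val '' K : Set X)) (hoff : ∀ u ∉ K, F' u = e (G u)) {x : X}
    (hx : LD n G x) : LD n (glue U e F' G) x := by
  by_cases hxU : x ∈ U
  · refine LD_descend U _ ⟨x, hxU⟩ ?_
    have h2 : (fun u : U => glue U e F' G u) = fun u => e.symm (F' u) := by
      funext u
      exact glue_in U e F' G u
    rw [h2]
    refine LD.comp_fun (he _ (htgt _)) (hF' _ ?_)
    refine LD.comp_fun (he' _ (hsrc _)) ?_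
    exact LD.comp_fun (g := G) (f := (Subtype.val : U → X)) hx (LD_val U _)
  · have hxK : x ∉ Subtype.val '' K := by
      rintro ⟨u, _, rfl⟩
      exact hxU u.2
    refine hx.congr ?_
    filter_upwards [hK.isOpen_compl.mem_nhds hxK] with y hy
    exact glue_off U e F' G hsrc K hoff hy

theorem glue_LD' (U : TopologicalSpace.Opens X) (e : OpenPartialHomeomorph Y (E n))
    (he : ∀ z ∈ e.target, LD n (e.symm : E n → Y) z) (F' : U → E n) (G : X → Y)
    (htgt : ∀ u : U, F' u ∈ e.target) {u : U} (hu : LD n F' u) :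
    LD n (glue U e F' G) (u : X) := by
  refine LD_descend U _ u ?_
  have h2 : (fun u : U => glue U e F' G u) = fun u => e.symm (F' u) := by
    funext u
    exact glue_in U e F' G u
  rw [h2]
  exact LD.comp_fun (he _ (htgt _)) hu

/-- the derivative in another chart -/
theorem der_formula {k : ℕ} (U : TopologicalSpace.Opens X) (e e' : OpenPartialHomeomorph Y (E n))
    (he : ∀ z ∈ e.target, LD n (e.symm : E n → Y) z)
    (he' : ∀ y ∈ e'.source, LD n (e' : Y → E n) y)
    (F₁ : U → E n) (H : X → Y) (hH : ∀ u : U, H u = e.symm (F₁ u)) (a : E n → X) (b : E n → U)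
    (T : E n →L[ℝ] E k) (z : E n) (ha : LD n a z) (haz : a z ∈ U)
    (hb : ∀ w, a w ∈ U → (b w : X) = a w) (hF₁ : ContMDiffAt (𝓡 n) (𝓡 n) ∞ F₁ (b z))
    (htgt : F₁ (b z) ∈ e.target) (hsrc : e.symm (F₁ (b z)) ∈ e'.source) :
    fderiv ℝ (fun w => T (e' (H (a w)))) z =
      T ∘L ((fderiv ℝ (fun y => e' (e.symm y)) (F₁ (b z))) ∘L
        (fderiv ℝ (fun w => F₁ (b w)) z)) := by
  have hbLD : LD n b z := LD_lift U ha b hb haz
  have h1 : (fun w => T (e' (H (a w)))) =ᶠ[𝓝 z] fun w => T (e' (e.symm (F₁ (b w)))) := by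
    filter_upwards [ha.continuousAt.tendsto.eventually (U.2.mem_nhds haz)] with w hw
    rw [← hb w hw, hH]
  rw [h1.fderiv_eq]
  have h2 : LD n (fun y => e' (e.symm y)) (F₁ (b z)) := LD.comp_fun (he' _ hsrc) (he _ htgt)
  have h3 : DifferentiableAt ℝ (fun y => e' (e.symm y)) (F₁ (b z)) :=
    h2.contDiffAt.differentiableAt (by simp)
  have h4 : ContDiffAt ℝ ∞ (fun w => F₁ (b w)) z :=
    contMDiffAt_iff_contDiffAt.1 (hF₁.comp z hbLD.contMDiffAt)
  have h5 : DifferentiableAt ℝ (fun w => F₁ (b w)) z := h4.differentiableAt (by simp)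
  have h6 : HasFDerivAt (fun w => (fun y => e' (e.symm y)) ((fun w => F₁ (b w)) w))
      ((fderiv ℝ (fun y => e' (e.symm y)) (F₁ (b z))) ∘L (fderiv ℝ (fun w => F₁ (b w)) z)) z :=
    HasFDerivAt.comp z (g := fun y => e' (e.symm y)) (f := fun w => F₁ (b w))
      h3.hasFDerivAt h5.hasFDerivAt
  exact (T.hasFDerivAt.comp z h6).fderiv

end glue

end Pool.Agent.Y170.NA
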